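import Pool.Agent.Lib.MP_2f3286_ag.Fer.PlcK
import Pool.Agent.Lib.MP_2f3286_ag.Fer.Away

/-!
# The data used with a place at the prime above `p` only
-/

open IsDedekindDomain NumberField
open scoped WithZero

namespace Pool.Agent.Lib.MP_2f3286_ag.Fer.Tp

/-- A field `L` over the number field `F` with a place with values in the completion `F_P`, the
identity on `F`, and a group `W` of elements, such that the quotients of the factors of `r ^ p + 1`
for good `r` in `W` with `r ^ p + 1` in `W` have valuations divisible by `p` outside `P`, up to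
`p`-th powers. -/
structure DataP (p : ℕ) {F : Type*} [Field F] [NumberField F] (P : HeightOneSpectrum (𝓞 F)) (ζ : F)
    (L : Type*) [Field L] [Algebra F L] where
  /-- the place -/
  pl : Plc L (P.adicCompletion F)
  base : ∀ a : F, pl.Has (algebraMap F L a) (algebraMap F (P.adicCompletion F) a)
  /-- the units -/
  W : Set L
  mul_mem : ∀ u ∈ W, ∀ v ∈ W, u * v ∈ W
  inv_mem : ∀ u ∈ W, u⁻¹ ∈ W
  const_mem : ∀ a : F, a ≠ 0 → algebraMap F L a ∈ W
  root_mem : ∀ u, u ^ p ∈ W → u ∈ W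
  add_mem : ∀ r ∈ W, r ^ p + 1 ∈ W → ∀ i : ℕ, r + algebraMap F L (ζ ^ i) ∈ W
  quot : ∀ r ∈ W, r ^ p + 1 ∈ W → Good p P r → ∀ i j : ℕ, i < p → j < p →
    ∃ c : F, c ≠ 0 ∧ (∀ w : HeightOneSpectrum (𝓞 F), w ≠ P → PV p w c) ∧ ∃ g : L, g ≠ 0 ∧
      r + algebraMap F L (ζ ^ i) = algebraMap F L c * g ^ p * (r + algebraMap F L (ζ ^ j))

variable {p : ℕ} {F : Type*} [Field F] [NumberField F] {P : HeightOneSpectrum (𝓞 F)} {ζ : F}
  {L : Type*} [Field L] [Algebra F L]

/-- a good element `r` such that `r` and `r ^ p + 1` are units -/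
def GoodU (D : DataP p P ζ L) (r : L) : Prop := Good p P r ∧ r ∈ D.W ∧ r ^ p + 1 ∈ D.W

theorem DataP.pow_mem (D : DataP p P ζ L) {u : L} (hu : u ∈ D.W) (n : ℕ) : u ^ n ∈ D.W := by
  induction n with
  | zero =>
    rw [pow_zero, ← map_one (algebraMap F L)]
    exact D.const_mem 1 one_ne_zero
  | succ n ih => rw [pow_succ]; exact D.mul_mem _ ih _ hu

theorem DataP.neg_mem (D : DataP p P ζ L) {u : L} (hu : u ∈ D.W) : -u ∈ D.W := by
  have h1 : -u = algebraMap F L (-1) * u := by rw [map_neg, map_one, neg_one_mul]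
  rw [h1]
  exact D.mul_mem _ (D.const_mem _ (neg_ne_zero.2 one_ne_zero)) _ hu

theorem DataP.div_mem (D : DataP p P ζ L) {u v : L} (hu : u ∈ D.W) (hv : v ∈ D.W) :
    u / v ∈ D.W := by
  rw [div_eq_mul_inv]
  exact D.mul_mem _ hu _ (D.inv_mem _ hv)

theorem DataP.mul_pow_has (D : DataP p P ζ L) {a : F} (ha : a ≠ 0) {g : L} {n : ℕ}
    (hn : n ≠ 0) {y : P.adicCompletion F} (hy : y ≠ 0)
    (h : D.pl.Has (algebraMap F L a * g ^ n) y) :
    ∃ x, x ≠ 0 ∧ D.pl.Has g x ∧ y = algebraMap F (P.adicCompletion F) a * x ^ n := by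
  have ha' : algebraMap F (P.adicCompletion F) a ≠ 0 := by
    rw [Ne, FaithfulSMul.algebraMap_eq_zero_iff]
    exact ha
  have haL : algebraMap F L a ≠ 0 := by
    rw [Ne, FaithfulSMul.algebraMap_eq_zero_iff]
    exact ha
  have h1 := h.div (D.base a) ha'
  rw [mul_div_cancel_left₀ _ haL] at h1
  obtain ⟨x, hx, hxn⟩ := Plc.pow_has hn h1
  have h2 : y = algebraMap F (P.adicCompletion F) a * x ^ n := by
    rw [hxn, mul_div_cancel₀ _ ha']
  refine ⟨x, ?_, hx, h2⟩
  rintro rfl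
  rw [zero_pow hn, mul_zero] at h2
  exact hy h2

end Pool.Agent.Lib.MP_2f3286_ag.Fer.Tp
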