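import Pool.Agent.Lib.MP_2f3286_ag.Fer.Tp.D
import Pool.Agent.Lib.MP_2f3286_ag.Fer.CI

/-!
# The first case, with a place at the prime above `p` only
-/

open IsDedekindDomain NumberField
open scoped WithZero

namespace Pool.Agent.Lib.MP_2f3286_ag.Fer.Tp

theorem first_case {p : ℕ} {F : Type*} [Field F] [NumberField F] (X : Stp p F) {L : Type*}
    [Field L] [Algebra F L] (D : DataP p X.P X.ζ L) {r : L} (hr : GoodU D r)
    {ρ : X.P.adicCompletion F} (hρ : D.pl.Has r ρ) (h1 : Valued.v ρ = (1 : ℤᵐ⁰))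
    (h2 : Valued.v (ρ + 1) = (1 : ℤᵐ⁰)) : Valued.v (ρ - 1) < (1 : ℤᵐ⁰) := by
  have hp := X.hp
  set v : Valuation (X.P.adicCompletion F) ℤᵐ⁰ := Valued.v with hv
  set z : X.P.adicCompletion F := algebraMap F (X.P.adicCompletion F) X.ζ with hz
  have hl : Loc p v z := X.loc
  have hexp : WithZero.exp (-1 : ℤ) < (1 : ℤᵐ⁰) := lt_one_iff.2 le_rfl
  by_cases h5 : 5 ≤ p
  swap
  · -- the case of the prime three
    have h3 : p = 3 := by
      have h4 := hp.two_le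
      have h6 := X.h2
      have h7 : p ≠ 4 := by
        rintro rfl
        exact absurd hp (by norm_num)
      omega
    obtain ⟨n, hn⟩ := hl.resid ρ h1.le
    have hn1 : v (ρ - n) < 1 := hn.trans_lt hexp
    have key : ∀ m : ℤ, (p : ℤ) ∣ (n : ℤ) - m → v (ρ - m) < 1 := by
      intro m hm
      have h4 : v (((n : ℤ) - m : ℤ) : X.P.adicCompletion F) < 1 := (hl.int_lt hp _).2 hm
      have h6 : ρ - m = (ρ - n) + (((n : ℤ) - m : ℤ) : X.P.adicCompletion F) := by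
        push_cast
        ring
      rw [h6]
      exact v.map_add_lt hn1 h4
    have h4 : (p : ℤ) ∣ (n : ℤ) - 0 ∨ (p : ℤ) ∣ (n : ℤ) - 1 ∨ (p : ℤ) ∣ (n : ℤ) - (-1) := by
      rw [h3]
      omega
    rcases h4 with h4 | h4 | h4
    · have h6 := key 0 h4
      rw [Int.cast_zero, sub_zero, h1] at h6
      exact absurd h6 (lt_irrefl _)
    · have h6 := key 1 h4
      rwa [Int.cast_one] at h6
    · have h6 := key (-1) h4
      rw [Int.cast_neg, Int.cast_one, sub_neg_eq_add, h2] at h6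
      exact absurd h6 (lt_irrefl _)
  -- the case `5 ≤ p`
  have hne : ∀ i j : ℕ, i < p → j < p → i ≠ j → X.ζ ^ i ≠ X.ζ ^ j := fun i j hi hj hij h =>
    hij (X.hζ.pow_inj hi hj h)
  obtain ⟨c₁, hc₁, hv₁, g₁, hg₁, e₁⟩ := D.quot r hr.2.1 hr.2.2 hr.1 3 2 (by omega) (by omega)
  obtain ⟨c₂, hc₂, hv₂, g₂, hg₂, e₂⟩ := D.quot r hr.2.1 hr.2.2 hr.1 1 2 (by omega) (by omega)
  obtain ⟨c₃, hc₃, hv₃, g₃, hg₃, e₃⟩ := D.quot r hr.2.1 hr.2.2 hr.1 1 0 (by omega) (by omega)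
  set c : F := c₁ * (c₂ * c₂) * c₃ with hc
  set g : L := g₁ * (g₂ * g₂) * g₃ with hg
  have hc0 : c ≠ 0 := mul_ne_zero (mul_ne_zero hc₁ (mul_ne_zero hc₂ hc₂)) hc₃
  have hcv : ∀ w : HeightOneSpectrum (𝓞 F), w ≠ X.P → PV p w c := fun w hw =>
    ((hv₁ w hw).mul ((hv₂ w hw).mul (hv₂ w hw))).mul (hv₃ w hw)
  -- values at the prime above `p`
  have hzj : ∀ j : ℕ, D.pl.Has (r + algebraMap F L (X.ζ ^ j)) (ρ + z ^ j) := by
    intro j
    have h6 := hρ.add (D.base (X.ζ ^ j))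
    rw [map_pow (algebraMap F (X.P.adicCompletion F))] at h6
    exact h6
  have hvj : ∀ j : ℕ, v (ρ + z ^ j) = 1 := by
    intro j
    have h6 : ρ + z ^ j = (ρ + 1) + (z ^ j - 1) := by ring
    have h7 : v (z ^ j - 1) < v (ρ + 1) := by
      rw [h2]
      exact (hl.zpow_sub_one_le j).trans_lt hexp
    rw [h6, Valuation.map_add_eq_of_lt_left v h7, h2]
  have hnej : ∀ j : ℕ, ρ + z ^ j ≠ 0 := by
    intro j h6
    have h7 := hvj j
    rw [h6, map_zero] at h7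
    exact zero_ne_one h7
  have hrj : ∀ j : ℕ, r + algebraMap F L (X.ζ ^ j) ≠ 0 := fun j => (hzj j).ne_zero (hnej j)
  set R : ℕ → L := fun j => r + algebraMap F L (X.ζ ^ j) with hR
  have hE : R 3 * R 1 ^ 3 / (R 2 ^ 3 * R 0) = algebraMap F L c * g ^ p := by
    rw [div_eq_iff (mul_ne_zero (pow_ne_zero _ (hrj 2)) (hrj 0))]
    have e₁' : R 3 = algebraMap F L c₁ * g₁ ^ p * R 2 := e₁
    have e₂' : R 1 = algebraMap F L c₂ * g₂ ^ p * R 2 := e₂
    have e₃' : R 1 = algebraMap F L c₃ * g₃ ^ p * R 0 := e₃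
    calc R 3 * R 1 ^ 3 = R 3 * (R 1 * R 1) * R 1 := by ring
      _ = (algebraMap F L c₁ * g₁ ^ p * R 2) * ((algebraMap F L c₂ * g₂ ^ p * R 2) *
          (algebraMap F L c₂ * g₂ ^ p * R 2)) * (algebraMap F L c₃ * g₃ ^ p * R 0) := by
        rw [← e₁', ← e₂', ← e₃']
      _ = algebraMap F L c * g ^ p * (R 2 ^ 3 * R 0) := by
        rw [hc, hg]
        simp only [map_mul, mul_pow]
        ring
  set φ : X.P.adicCompletion F := (ρ + z ^ 3) * (ρ + z) ^ 3 / ((ρ + z ^ 2) ^ 3 * (ρ + 1)) with hφ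
  have hφ' : D.pl.Has (algebraMap F L c * g ^ p) φ := by
    rw [← hE]
    have h6 := ((hzj 3).mul ((hzj 1).pow 3)).div (((hzj 2).pow 3).mul (hzj 0))
      (mul_ne_zero (pow_ne_zero _ (hnej 2)) (hnej 0))
    rw [pow_one z, pow_zero z] at h6
    exact h6
  have hvφ : v φ = 1 := by
    have h6 := hvj 1
    have h7 := hvj 0
    rw [pow_one] at h6
    rw [pow_zero] at h7
    rw [hφ, map_div₀, map_mul, map_mul, map_pow, map_pow, hvj 3, h6, hvj 2, h7]
    norm_num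
  have hφ0 : φ ≠ 0 := by
    intro h6
    rw [h6, map_zero] at hvφ
    exact zero_ne_one hvφ
  obtain ⟨x, hx0, -, hx⟩ := D.mul_pow_has hc0 hp.ne_zero hφ0 hφ'
  have hPc : PV p X.P c := by
    rw [pv_iff hp.ne_zero]
    refine ⟨x⁻¹, inv_ne_zero hx0, ?_⟩
    have h6 : v (algebraMap F (X.P.adicCompletion F) c) * v x ^ p = 1 := by
      rw [← map_pow, ← map_mul, ← hx, hvφ]
    have h7 : v x ^ p ≠ 0 := by
      intro h8
      rw [h8, mul_zero] at h6
      exact zero_ne_one h6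
    rw [map_inv₀, inv_pow]
    exact eq_inv_of_mul_eq_one_left h6
  obtain ⟨u, d, hd, hud⟩ := unit_class hp X.cls hc0 fun w => by
    by_cases hw : w = X.P
    · rw [hw]
      exact hPc
    · exact hcv w hw
  set U : X.P.adicCompletion F := algebraMap F _ ((u : 𝓞 F) : F) with hU
  have hvU : v U = 1 := by
    rw [hU, hv, val_alg', ci_unit]
  set y : X.P.adicCompletion F := algebraMap F _ d * x with hy
  have hφy : φ = U * y ^ p := by
    rw [hx, hud, map_mul, map_pow, hy, mul_pow, mul_assoc]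
  have hvy : v y ≤ 1 := by
    by_contra h6
    have h7 : 1 < v y ^ p := one_lt_pow₀ (not_le.1 h6) hp.ne_zero
    have h8 : v φ = v y ^ p := by
      rw [hφy, map_mul, hvU, one_mul, map_pow]
    rw [← h8, hvφ] at h7
    exact lt_irrefl _ h7
  obtain ⟨b, hb⟩ := hl.pow_int hp hvy
  set κ : X.P.adicCompletion F := ρ * (ρ - 1) / (ρ + 1) ^ 3 with hκ
  have hρ1 : ρ + 1 ≠ 0 := by
    have h6 := hnej 0
    rwa [pow_zero] at h6
  have hκ' : κ * (ρ + 1) ^ 3 = ρ * (ρ - 1) := by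
    rw [hκ, div_mul_cancel₀ _ (pow_ne_zero 3 hρ1)]
  have hvκ : v κ = v (ρ - 1) := by
    rw [hκ, map_div₀, map_mul, map_pow, h1, h2, one_mul, one_pow, div_one]
  have hv1 : v (ρ - 1) ≤ 1 := by
    refine (v.map_sub _ _).trans ?_
    rw [h1, map_one, max_self]
  obtain ⟨k, hk⟩ := hl.resid κ (hvκ.le.trans hv1)
  have hphi := hl.phi h1.le h2 hκ'
  have hfin := ci_four h5 hφy hvU hb hphi hk hl.val_pi
  have hcast : U * (b : X.P.adicCompletion F) - 1 - (k : X.P.adicCompletion F) * (z - 1) ^ 3 =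
      algebraMap F (X.P.adicCompletion F)
        (((u : 𝓞 F) : F) * b - 1 - ((k : ℤ) : F) * (X.ζ - 1) ^ 3) := by
    simp only [map_sub, map_mul, map_one, map_pow, map_intCast, Int.cast_natCast, map_natCast]
    rfl
  rw [hcast, hv, val_alg'] at hfin
  have hpk := X.cong h5 u b k hfin
  have hvk : v (k : X.P.adicCompletion F) < 1 := by
    have h6 := (hl.int_lt hp (k : ℤ)).2 hpk
    rwa [Int.cast_natCast] at h6
  rw [← hvκ]
  have h6 : κ = (κ - k) + k := by ring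
  rw [h6]
  exact v.map_add_lt (hk.trans_lt hexp) hvk

end Pool.Agent.Lib.MP_2f3286_ag.Fer.Tp
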