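import Pool.Agent.Lib.MP_2f3286_ag.Fer.Tp.D
import Pool.Agent.Lib.MP_2f3286_ag.Fer.DS

/-!
# The descent step, with a place at the prime above `p` only
-/

open IsDedekindDomain NumberField
open scoped WithZero

namespace Pool.Agent.Lib.MP_2f3286_ag.Fer.Tp

theorem step {p : ℕ} {F : Type*} [Field F] [NumberField F] (X : Stp p F) {L : Type*}
    [Field L] [Algebra F L] (D : DataP p X.P X.ζ L) {r : L} (hr : GoodU D r)
    {ρ : X.P.adicCompletion F} (hρ : D.pl.Has r ρ)
    (h : Valued.v (ρ + 1) ≤ WithZero.exp (-((p : ℤ) + 1))) :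
    ∃ r' : L, GoodU D r' ∧
      r * (r' ^ p - algebraMap F L X.ζ) = 1 - algebraMap F L X.ζ * r' ^ p ∧
      ∃ ρ' : X.P.adicCompletion F, D.pl.Has r' ρ' ∧
        Valued.v (ρ' + 1) ≤ WithZero.exp (-2 : ℤ) ∧
        Valued.v (ρ' + 1) * WithZero.exp (1 - (p : ℤ)) = Valued.v (ρ + 1) * WithZero.exp 1 := by
  have hp := X.hp
  have h2 := X.h2
  have hζ := X.hζ
  have hP := X.away
  have hloc := X.loc
  have hp2 : 2 ≤ p := hp.two_le
  have hp3 : 3 ≤ p := by omega
  have hodd : Odd p := hp.odd_of_ne_two h2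
  set z : X.P.adicCompletion F := algebraMap F (X.P.adicCompletion F) X.ζ with hz
  set ζL : L := algebraMap F L X.ζ with hζL
  have hζp : X.ζ ^ p = 1 := hζ.pow_eq_one
  have hζLp : ζL ^ p = 1 := by rw [hζL, ← map_pow, hζp, map_one]
  have hzp : z ^ p = 1 := hloc.root
  have hζ0 : X.ζ ≠ 0 := hζ.ne_zero hp.ne_zero
  have hζ2 : X.ζ ^ 2 ≠ 1 := by
    intro h0
    have h1 := hζ.dvd_of_pow_eq_one 2 h0
    have h3 := Nat.le_of_dvd (by norm_num) h1
    omega
  have hζ1 : 1 + X.ζ ≠ 0 := by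
    intro h0
    apply hζ2
    have h1 : X.ζ = -1 := by linear_combination h0
    rw [h1]
    ring
  -- the first quotient
  have hij : X.ζ ^ (p - 1) ≠ X.ζ ^ 1 := by
    intro h0
    have h1 := hζ.pow_inj (by omega) (by omega) h0
    omega
  obtain ⟨c₀, hc₀, hPV₀, g₀, hg₀, eq₀⟩ := D.quot r hr.2.1 hr.2.2 hr.1 (p - 1) 1 (by omega) (by omega)
  rw [pow_one] at eq₀
  have hrζ : r + ζL ≠ 0 := by
    intro h0
    apply hr.1.1 (-X.ζ)
    rw [map_neg]
    linear_combination h0
  set c : F := -(X.ζ * c₀) with hc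
  have hc0 : c ≠ 0 := neg_ne_zero.2 (mul_ne_zero hζ0 hc₀)
  have hPV : ∀ w : HeightOneSpectrum (𝓞 F), w ≠ X.P → PV p w c := by
    intro w hw
    have h1 : c = -X.ζ * c₀ := by rw [hc]; ring
    rw [h1]
    refine PV.mul (PV.of_unit ?_) (hPV₀ w hw)
    rw [Valuation.map_neg]
    have h3 := zeta_unit hp hζ w 1
    rwa [pow_one] at h3
  set H : L := (ζL * r + 1) / (r + ζL) with hH
  have eq1 : ζL * r + 1 = ζL * (algebraMap F L c₀) * g₀ ^ p * (r + ζL) := by
    have h1 : ζL * (r + algebraMap F L (X.ζ ^ (p - 1))) = ζL * r + 1 := by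
      have h3 : ζL * algebraMap F L (X.ζ ^ (p - 1)) = 1 := by
        rw [hζL, ← map_mul, ← pow_succ', Nat.sub_add_cancel (by omega), hζp, map_one]
      rw [mul_add, h3]
    rw [← h1, eq₀]
    ring
  have eq2 : algebraMap F L c * g₀ ^ p = -H := by
    rw [hH, ← neg_div, eq_div_iff hrζ, hc, map_neg, map_mul]
    linear_combination eq1
  -- values at `P`
  have hHζ : D.pl.Has ζL z := D.base X.ζ
  have hv1 : Valued.v (ρ + z) = WithZero.exp (-1 : ℤ) := by
    have h1 : ρ + z = (ρ + 1) + (z - 1) := by ring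
    rw [h1, Valuation.map_add_eq_of_lt_right, hloc.val_pi]
    rw [hloc.val_pi]
    refine lt_of_le_of_lt h ?_
    rw [WithZero.exp_lt_exp]
    have : (0 : ℤ) < p := by exact_mod_cast hp.pos
    omega
  have hρz : ρ + z ≠ 0 := by
    intro h0
    rw [h0, map_zero] at hv1
    exact WithZero.exp_ne_zero hv1.symm
  set η : X.P.adicCompletion F := (z * ρ + 1) / (ρ + z) with hη
  have hHη : D.pl.Has H η :=
    ((hHζ.mul hρ).add Plc.has_one).div (hρ.add hHζ) hρz
  have hηv : Valued.v (-η - 1) = Valued.v (ρ + 1) * WithZero.exp (1 : ℤ) := by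
    have h1 : -η - 1 = -((1 + z) * (ρ + 1) / (ρ + z)) := by
      rw [hη]
      field_simp
      ring
    rw [h1, Valuation.map_neg, map_div₀, map_mul, Loc.one_add_z hp h2 hloc, one_mul, hv1, div_eq_mul_inv,
      ← WithZero.exp_neg, neg_neg]
  have hηle : Valued.v (-η - 1) ≤ WithZero.exp (-(p : ℤ)) := by
    rw [hηv]
    calc Valued.v (ρ + 1) * WithZero.exp (1 : ℤ) ≤ WithZero.exp (-((p : ℤ) + 1)) * WithZero.exp (1 : ℤ) :=
          mul_le_mul_left h _
      _ = WithZero.exp (-(p : ℤ)) := by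
          rw [← WithZero.exp_add]
          congr 1
          ring
  have hlt1 : WithZero.exp (-(p : ℤ)) < (1 : ℤᵐ⁰) := by
    rw [← WithZero.exp_zero, WithZero.exp_lt_exp]
    have : (0 : ℤ) < p := by exact_mod_cast hp.pos
    omega
  have hη0 : -η ≠ 0 := by
    intro h0
    rw [h0, zero_sub, Valuation.map_neg, map_one] at hηle
    exact absurd (lt_of_le_of_lt hηle hlt1) (lt_irrefl _)
  have hneg : D.pl.Has (algebraMap F L c * g₀ ^ p) (-η) := by
    rw [eq2]
    exact hHη.neg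
  obtain ⟨x, hx0, hgx, hηx⟩ := D.mul_pow_has hc0 hp.ne_zero hη0 hneg
  obtain ⟨d, hd⟩ := X.kummer hc0 hPV (γ := x) (by
    rw [← hηx]
    exact hηle)
  -- the new element
  set γ : L := algebraMap F L d * g₀ with hγ
  have hγp : γ ^ p = -H := by
    rw [hγ, mul_pow, ← map_pow, hd, eq2]
  set y : X.P.adicCompletion F := algebraMap F (X.P.adicCompletion F) d * x with hy
  have hγy : D.pl.Has γ y := (D.base d).mul hgx
  have hyp : y ^ p = -η := by
    rw [hy, mul_pow, ← map_pow, hd, hηx]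
  have hy1 : Valued.v (y - 1) < 1 := by
    apply Loc.sub_one_lt hp hloc
    rw [hyp]
    exact lt_of_le_of_lt hηle hlt1
  obtain ⟨j, hj⟩ := Loc.adjust hp hloc hy1
  have hzj : (z ^ j * y) ^ p = -η := by
    rw [mul_pow, ← pow_mul, mul_comm j p, pow_mul, hzp, one_pow, one_mul, hyp]
  have hr'p : (-(ζL ^ j * γ)) ^ p = H := by
    rw [hodd.neg_pow, mul_pow, ← pow_mul, mul_comm j p, pow_mul, hζLp, one_pow, one_mul, hγp, neg_neg]
  have hrel : r * (H - ζL) = 1 - ζL * H := by
    have h1 : H * (r + ζL) = ζL * r + 1 := by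
      rw [hH, div_mul_cancel₀ _ hrζ]
    linear_combination h1
  -- units
  have hW1 : r + ζL ∈ D.W := by
    have h1 := D.add_mem r hr.2.1 hr.2.2 1
    rwa [pow_one] at h1
  have hWζ : ζL ∈ D.W := D.const_mem X.ζ hζ0
  have hHW : H ∈ D.W := by
    refine D.div_mem ?_ hW1
    have h1 : ζL * (r + algebraMap F L (X.ζ ^ (p - 1))) = ζL * r + 1 := by
      have h3 : ζL * algebraMap F L (X.ζ ^ (p - 1)) = 1 := by
        rw [hζL, ← map_mul, ← pow_succ', Nat.sub_add_cancel (by omega), hζp, map_one]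
      rw [mul_add, h3]
    rw [← h1]
    exact D.mul_mem _ hWζ _ (D.add_mem r hr.2.1 hr.2.2 (p - 1))
  have hHW1 : H + 1 ∈ D.W := by
    have h1 : H + 1 = algebraMap F L (1 + X.ζ) * (r + algebraMap F L (X.ζ ^ 0)) / (r + ζL) := by
      rw [hH, div_add_one hrζ, pow_zero, map_one, map_add, map_one]
      congr 1
      ring
    rw [h1]
    exact D.div_mem (D.mul_mem _ (D.const_mem _ hζ1) _ (D.add_mem r hr.2.1 hr.2.2 0)) hW1
  refine ⟨-(ζL ^ j * γ), ⟨⟨?_, ?_⟩, D.root_mem _ (by rw [hr'p]; exact hHW),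
    by rw [hr'p]; exact hHW1⟩, ?_, -(z ^ j * y), ((hHζ.pow j).mul hγy).neg, ?_, ?_⟩
  · -- not constant
    intro a ha
    rw [ha] at hr'p
    rw [← hr'p, ← map_pow, hζL, ← map_sub, ← map_mul, ← map_one (algebraMap F L), ← map_sub] at hrel
    by_cases h0 : a ^ p - X.ζ = 0
    · rw [h0, map_zero, mul_zero] at hrel
      have h1 : (0 : F) = 1 - X.ζ * a ^ p := by
        apply (algebraMap F L).injective
        rw [map_zero]
        exact hrel
      apply hζ2
      have h3 : a ^ p = X.ζ := by linear_combination h0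
      rw [h3] at h1
      linear_combination h1
    · apply hr.1.1 ((1 - X.ζ * a ^ p) / (a ^ p - X.ζ))
      rw [map_div₀, eq_div_iff]
      · exact hrel
      · intro h1
        apply h0
        apply (algebraMap F L).injective
        rw [h1, map_zero]
  · -- the class of `r' ^ p + 1`
    have hij2 : X.ζ ^ 0 ≠ X.ζ ^ 1 := by
      intro h0
      have h1 := hζ.pow_inj (by omega) (by omega) h0
      omega
    obtain ⟨c₂, hc₂, hPV₂, g₂, hg₂, eq₂⟩ := D.quot r hr.2.1 hr.2.2 hr.1 0 1 (by omega) (by omega)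
    rw [pow_one, pow_zero, map_one] at eq₂
    refine ⟨(1 + X.ζ) * c₂, mul_ne_zero hζ1 hc₂, ?_, g₂, ?_⟩
    · intro w hw
      refine PV.mul (PV.of_unit ?_) (hPV₂ w hw)
      have h1 : w.valuation F (X.ζ ^ 2 - 1) = 1 := by
        apply away_unit hp hζ w (hP w hw)
        intro h0
        have := Nat.le_of_dvd (by norm_num) h0
        omega
      have h3 : w.valuation F (X.ζ ^ 1 - 1) = 1 := by
        apply away_unit hp hζ w (hP w hw)
        intro h0
        have := Nat.le_of_dvd (by norm_num) h0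
        omega
      have h4 : X.ζ ^ 2 - 1 = (1 + X.ζ) * (X.ζ ^ 1 - 1) := by ring
      rw [h4, map_mul, h3, mul_one] at h1
      exact h1
    · rw [hr'p, hH, map_mul, map_add, map_one]
      rw [div_add_one hrζ, div_eq_iff hrζ]
      have h5 : ζL * r + 1 + (r + ζL) = (1 + ζL) * (r + 1) := by ring
      rw [h5, eq₂]
      ring
  · rw [hr'p]
    exact hrel
  · have h1 : -(z ^ j * y) + 1 = -(z ^ j * y - 1) := by ring
    rw [h1, Valuation.map_neg]
    exact hj
  · have h1 : -(z ^ j * y) + 1 = -(z ^ j * y - 1) := by ring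
    rw [h1, Valuation.map_neg, ← Loc.pow_exact hp hloc hj, hzj, hηv]

end Pool.Agent.Lib.MP_2f3286_ag.Fer.Tp
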