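import Pool.Agent.Lib.MP_2f3286_ag.Fer.Tp.CI
import Pool.Agent.Lib.MP_2f3286_ag.Fer.LRoot

/-!
# Choice of the function with value near `-1` at `P`, with a place at `P` only
-/

open IsDedekindDomain NumberField
open scoped WithZero

namespace Pool.Agent.Lib.MP_2f3286_ag.Fer.Tp

theorem select {p : ℕ} {F : Type*} [Field F] [NumberField F] (X : Stp p F) {L : Type*}
    [Field L] [Algebra F L] (D : DataP p X.P X.ζ L) {x y : L} (hxy : x ^ p + y ^ p = 1)
    (hx : ∀ c : F, x ≠ algebraMap F L c) (hy : ∀ c : F, y ≠ algebraMap F L c)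
    (hyx : ∀ c : F, y / x ≠ algebraMap F L c) (hxW : x ∈ D.W) (hyW : y ∈ D.W) :
    ∃ r : L, (r = -x ∨ r = -y ∨ r = y / x) ∧ GoodU D r ∧ (∃ q : L, r ^ p + 1 = q ^ p) ∧
      ∃ ρ : X.P.adicCompletion F, D.pl.Has r ρ ∧ Valued.v (ρ + 1) < (1 : ℤᵐ⁰) := by
  have hp := X.hp
  have hodd : Odd p := hp.odd_of_ne_two X.h2
  have hp0 : p ≠ 0 := hp.ne_zero
  have hx0 : x ≠ 0 := by
    intro h
    exact hx 0 (by rw [h, map_zero])
  have hPV1 : ∀ w : HeightOneSpectrum (𝓞 F), w ≠ X.P → PV p w (1 : F) := fun w _ =>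
    PV.of_unit (map_one _)
  have hxn : (-x) ^ p + 1 = y ^ p := by
    rw [hodd.neg_pow]
    linear_combination -hxy
  have hyn : (-y) ^ p + 1 = x ^ p := by
    rw [hodd.neg_pow]
    linear_combination -hxy
  have hyxn : (y / x) ^ p + 1 = (x⁻¹) ^ p := by
    rw [div_pow, inv_pow]
    have h1 : x ^ p ≠ 0 := pow_ne_zero _ hx0
    field_simp
    linear_combination hxy
  have gx : GoodU D (-x) := by
    refine ⟨⟨fun c hc => hx (-c) ?_, 1, one_ne_zero, hPV1, y, ?_⟩, D.neg_mem hxW,
      by rw [hxn]; exact D.pow_mem hyW p⟩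
    · rw [map_neg, ← hc, neg_neg]
    · rw [map_one, one_mul, hxn]
  have gy : GoodU D (-y) := by
    refine ⟨⟨fun c hc => hy (-c) ?_, 1, one_ne_zero, hPV1, x, ?_⟩, D.neg_mem hyW,
      by rw [hyn]; exact D.pow_mem hxW p⟩
    · rw [map_neg, ← hc, neg_neg]
    · rw [map_one, one_mul, hyn]
  have gyx : GoodU D (y / x) := by
    refine ⟨⟨hyx, 1, one_ne_zero, hPV1, x⁻¹, ?_⟩, D.div_mem hyW hxW,
      by rw [hyxn]; exact D.pow_mem (D.inv_mem _ hxW) p⟩
    rw [map_one, one_mul, hyxn]
  -- from `v (g ^ p - 1) < 1` for `g = - ρ`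
  have key : ∀ ρ : X.P.adicCompletion F, Valued.v ((-ρ) ^ p - 1) < (1 : ℤᵐ⁰) →
      Valued.v (ρ + 1) < (1 : ℤᵐ⁰) := by
    intro ρ h
    have h1 := X.loc.sub_one_lt hp h
    have h2 : ρ + 1 = -(-ρ - 1) := by ring
    rw [h2, Valuation.map_neg]
    exact h1
  have hyx_case : ∀ ρ : X.P.adicCompletion F, D.pl.Has (y / x) ρ →
      Valued.v ((-ρ) ^ p - 1) < (1 : ℤᵐ⁰) →
      ∃ r : L, (r = -x ∨ r = -y ∨ r = y / x) ∧ GoodU D r ∧ (∃ q : L, r ^ p + 1 = q ^ p) ∧
      ∃ ρ : X.P.adicCompletion F, D.pl.Has r ρ ∧ Valued.v (ρ + 1) < (1 : ℤᵐ⁰) :=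
    fun ρ h1 h2 => ⟨y / x, Or.inr (Or.inr rfl), gyx, ⟨x⁻¹, hyxn⟩, ρ, h1, key ρ h2⟩
  rcases D.pl.has_or_inv x with ⟨a, ha⟩ | ⟨-, hinv⟩
  · -- `x` has the value `a`
    have hyp : D.pl.Has (y ^ p) (1 - a ^ p) := by
      have h1 : y ^ p = 1 - x ^ p := by linear_combination hxy
      rw [h1]
      exact Plc.has_one.sub (ha.pow p)
    obtain ⟨b, hb, hbp⟩ := Plc.pow_has hp0 hyp
    rcases lt_trichotomy (1 : ℤᵐ⁰) (Valued.v a) with h1 | h1 | h1
    · -- `v a > 1`
      have ha0 : a ≠ 0 := by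
        rintro rfl
        rw [map_zero] at h1
        exact not_lt_bot h1
      refine hyx_case (b / a) (hb.div ha ha0) ?_
      have h2 : (-(b / a)) ^ p - 1 = -((a ^ p)⁻¹) := by
        rw [hodd.neg_pow, div_pow, hbp]
        have h3 : a ^ p ≠ 0 := pow_ne_zero _ ha0
        field_simp
        ring
      rw [h2, Valuation.map_neg, map_inv₀, map_pow]
      have h3 : 1 < Valued.v a ^ p := one_lt_pow₀ h1 hp0
      exact inv_lt_one_of_one_lt₀ h3
    · -- `v a = 1`
      rcases lt_or_ge (Valued.v b) (1 : ℤᵐ⁰) with h2 | h2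
      · -- `v b < 1`
        refine ⟨-x, Or.inl rfl, gx, ⟨y, hxn⟩, -a, ha.neg, key (-a) ?_⟩
        have h3 : (- -a) ^ p - 1 = -(b ^ p) := by
          rw [neg_neg, hbp]
          ring
        rw [h3, Valuation.map_neg, map_pow]
        exact pow_lt_one₀ zero_le' h2 hp0
      · -- both are units
        exfalso
        have hvb : Valued.v b = (1 : ℤᵐ⁰) := by
          refine le_antisymm ?_ h2
          have h3 : Valued.v b ^ p ≤ 1 := by
            rw [← map_pow, hbp]
            refine (Valued.v.map_sub _ _).trans (max_le (map_one _).le ?_)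
            rw [map_pow, ← h1, one_pow]
          exact (pow_le_one_iff hp0).1 h3
        have hva : Valued.v a = (1 : ℤᵐ⁰) := h1.symm
        have h3 : Valued.v (a + b - 1) < (1 : ℤᵐ⁰) := by
          have e : a + b - 1 = -(a ^ p - a) - (b ^ p - b) := by
            rw [hbp]
            ring
          have f1 : Valued.v (a ^ p - a) < (1 : ℤᵐ⁰) := lt_one_iff.2 (X.loc.frob hp hva.le)
          have f2 : Valued.v (b ^ p - b) < (1 : ℤᵐ⁰) := lt_one_iff.2 (X.loc.frob hp hvb.le)
          rw [e]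
          refine lt_of_le_of_lt (Valued.v.map_sub _ _) (max_lt ?_ f2)
          rw [Valuation.map_neg]
          exact f1
        have unit_a : Valued.v (-a + 1) = (1 : ℤᵐ⁰) := by
          have e : -a + 1 = b - (a + b - 1) := by ring
          rw [e, Valuation.map_sub_eq_of_lt_left, hvb]
          rw [hvb]
          exact h3
        have unit_b : Valued.v (-b + 1) = (1 : ℤᵐ⁰) := by
          have e : -b + 1 = a - (a + b - 1) := by ring
          rw [e, Valuation.map_sub_eq_of_lt_left, hva]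
          rw [hva]
          exact h3
        have c1 : Valued.v (-a - 1) < (1 : ℤᵐ⁰) :=
          first_case X D gx ha.neg (by rw [Valuation.map_neg, hva]) unit_a
        have c2 : Valued.v (-b - 1) < (1 : ℤᵐ⁰) :=
          first_case X D gy hb.neg (by rw [Valuation.map_neg, hvb]) unit_b
        have l1 := X.loc.root_level hp c1
        have l2 := X.loc.root_level hp c2
        have e : (((3 : ℤ) : X.P.adicCompletion F)) = -(((-a) ^ p - 1) + ((-b) ^ p - 1)) := by
          rw [hodd.neg_pow, hodd.neg_pow, hbp]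
          push_cast
          ring
        have l3 : Valued.v (((3 : ℤ) : X.P.adicCompletion F)) ≤ WithZero.exp (-((p : ℤ) + 1)) := by
          rw [e, Valuation.map_neg]
          exact (Valued.v.map_add _ _).trans (max_le l1 l2)
        by_cases h3p : p = 3
        · have h4 := X.loc.val_p
          have h5 : ((p : ℕ) : X.P.adicCompletion F) = (((3 : ℤ) : X.P.adicCompletion F)) := by
            have h6 : ((p : ℕ) : X.P.adicCompletion F) = ((3 : ℕ) : X.P.adicCompletion F) :=
              congrArg Nat.cast h3p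
            rw [h6]
            push_cast
            rfl
          rw [h5] at h4
          rw [h4] at l3
          have h6 := WithZero.exp_le_exp.mp l3
          omega
        · have h4 : ¬ (p : ℤ) ∣ 3 := by
            intro h5
            have h6 : p ∣ 3 := by exact_mod_cast h5
            rcases (Nat.prime_three.eq_one_or_self_of_dvd p h6) with h7 | h7
            · exact hp.one_lt.ne' h7
            · exact h3p h7
          rw [X.loc.int_eq_one hp h4, ← WithZero.exp_zero] at l3
          have h6 := WithZero.exp_le_exp.mp l3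
          omega
    · -- `v a < 1`
      refine ⟨-y, Or.inr (Or.inl rfl), gy, ⟨x, hyn⟩, -b, hb.neg, key (-b) ?_⟩
      have h3 : (- -b) ^ p - 1 = -(a ^ p) := by
        rw [neg_neg, hbp]
        ring
      rw [h3, Valuation.map_neg, map_pow]
      exact pow_lt_one₀ zero_le' h1 hp0
  · -- `x` has no value
    have h1 : D.pl.Has ((y / x) ^ p) (0 ^ p - 1) := by
      have e : (y / x) ^ p = (x⁻¹) ^ p - 1 := by linear_combination hyxn
      rw [e]
      exact (hinv.pow p).sub Plc.has_one
    obtain ⟨ρ, hρ, hρp⟩ := Plc.pow_has hp0 h1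
    refine hyx_case ρ hρ ?_
    have e : (-ρ) ^ p - 1 = 0 := by
      rw [hodd.neg_pow, hρp, zero_pow hp0]
      ring
    rw [e, map_zero]
    exact zero_lt_one

end Pool.Agent.Lib.MP_2f3286_ag.Fer.Tp
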