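import Pool.Agent.Lib.MP_2f3286_ag.Fer.Tp.D
import Pool.Agent.Lib.MP_2f3286_ag.Fer.Ty.TD
import Pool.Agent.Lib.MP_2f3286_ag.Fer.TR

/-!
# The data given by a section with a place at the prime above `p`
-/

open IsDedekindDomain NumberField

namespace Pool.Agent.Lib.MP_2f3286_ag.Fer.Tp

open Pool.Agent.Lib.MP_2f3286_ag.Fer.Ty

/-- The place of `L` with values in the completion. -/
theorem exists_plc {F : Type*} [Field F] [NumberField F] {P : HeightOneSpectrum (𝓞 F)} {K : Type*}
    [Field K] {M : Type*} [Field M] [Algebra K M]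
    [Algebra (AlgebraicClosure F) M] [Algebra F M] [IsScalarTower F (AlgebraicClosure F) M]
    (s : Gal(AlgebraicClosure F/F) →* Gal(M/K))
    {L : Type*} [Field L] [Algebra F L] [Algebra L M] [IsScalarTower F L M]
    (hL : ∀ (x : L) σ, s σ (algebraMap L M x) = algebraMap L M x)
    (ι : AlgebraicClosure F →ₐ[F] AlgebraicClosure (P.adicCompletion F))
    (A : ValuationSubring M)
    (φ : A →+* AlgebraicClosure (P.adicCompletion F))
    (hφ : MP_2f3286_bir.IsPlaceOf s (P.adicCompletion F)
      (ι : _ →+* AlgebraicClosure (P.adicCompletion F)) A φ) :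
    ∃ Q : Plc L (P.adicCompletion F),
      (∀ a : F, Q.Has (algebraMap F L a) (algebraMap F (P.adicCompletion F) a)) ∧
      ∀ (x : L) (y : P.adicCompletion F),
        Q.Has x y ↔ ∃ h : algebraMap L M x ∈ A, φ ⟨_, h⟩ = algebraMap _ _ y := by
  classical
  have hchar : CharZero (P.adicCompletion F) :=
    charZero_of_injective_algebraMap (algebraMap F (P.adicCompletion F)).injective
  have hval : ∀ (x : L) (h : algebraMap L M x ∈ A),
      ∃ y : P.adicCompletion F, φ ⟨_, h⟩ = algebraMap _ _ y :=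
    fun x h => PD.fixed_value hφ (fun σ => hL x σ) h
  have hinj : Function.Injective
      (algebraMap (P.adicCompletion F) (AlgebraicClosure (P.adicCompletion F))) :=
    (algebraMap (P.adicCompletion F) (AlgebraicClosure (P.adicCompletion F))).injective
  let g : A.comap (algebraMap L M) →+* AlgebraicClosure (P.adicCompletion F) :=
    φ.comp (((algebraMap L M).comp (A.comap (algebraMap L M)).subtype).codRestrict
      A.toSubring (fun x => x.2))
  have hg : ∀ (x : A.comap (algebraMap L M)),
      ∃ y : P.adicCompletion F, g x = algebraMap _ _ y := fun x => hval x x.2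
  let pl : Plc L (P.adicCompletion F) :=
    { A := A.comap (algebraMap L M)
      φ :=
        { toFun := fun x => (hg x).choose
          map_one' := hinj ((hg 1).choose_spec.symm.trans (by rw [map_one, map_one]))
          map_mul' := fun x y => hinj ((hg (x * y)).choose_spec.symm.trans (by
            rw [map_mul, map_mul, ← (hg x).choose_spec, ← (hg y).choose_spec]))
          map_zero' := hinj ((hg 0).choose_spec.symm.trans (by rw [map_zero, map_zero]))
          map_add' := fun x y => hinj ((hg (x + y)).choose_spec.symm.trans (by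
            rw [map_add, map_add, ← (hg x).choose_spec, ← (hg y).choose_spec])) }
      ker := fun x hx => by
        have h1 : φ ⟨algebraMap L M x, x.2⟩ ≠ 0 := by
          intro h0
          apply hx
          apply hinj
          refine (hg x).choose_spec.symm.trans ?_
          rw [map_zero]
          exact h0
        have h2 := hφ.2.1 _ h1
        rw [ValuationSubring.mem_comap, map_inv₀]
        exact h2 }
  have hHas : ∀ (x : L) (y : P.adicCompletion F),
      pl.Has x y ↔ ∃ h : algebraMap L M x ∈ A, φ ⟨_, h⟩ = algebraMap _ _ y := by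
    intro x y
    constructor
    · rintro ⟨h, rfl⟩
      exact ⟨h, (hg ⟨x, h⟩).choose_spec⟩
    · rintro ⟨h, h'⟩
      refine ⟨h, ?_⟩
      apply hinj
      rw [← h']
      exact (hg ⟨x, h⟩).choose_spec.symm
  refine ⟨pl, fun a => ?_, hHas⟩
  rw [hHas]
  obtain ⟨h1, h2⟩ := PD.const_value hφ a
  have h3 : algebraMap L M (algebraMap F L a) = algebraMap F M a :=
    (IsScalarTower.algebraMap_apply F L M a).symm
  refine ⟨h3 ▸ h1, ?_⟩
  rw [← h2]
  congr 1
  exact Subtype.ext h3

/-- the factors of `r ^ p + 1` -/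
theorem factor_mul {p : ℕ} (hodd : Odd p) {M : Type*} [Field M] {z : M} (hz : z ^ p = 1) (r : M) :
    (r + z) * ∑ i ∈ Finset.range p, r ^ i * (-z) ^ (p - 1 - i) = r ^ p + 1 := by
  have h1 := (Commute.all r (-z)).mul_geom_sum₂ p
  rw [hodd.neg_pow, hz, sub_neg_eq_add, sub_neg_eq_add] at h1
  exact h1

/-- The data given by a section of `Gal(M/K)`, where `M` contains the `p`-th roots of its elements
which are units at the places of `𝒱`, with a place over the completion at `P`. -/
theorem exists_dataP {p : ℕ} (hp : p.Prime) (hp2 : p ≠ 2) {F : Type*} [Field F] [NumberField F]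
    {ζ : F} (hζ : IsPrimitiveRoot ζ p) {P : HeightOneSpectrum (𝓞 F)}
    (hP : ∀ w : HeightOneSpectrum (𝓞 F), w ≠ P → (p : 𝓞 F) ∉ w.asIdeal) {K : Type*}
    [Field K] {M : Type*} [Field M] [Algebra K M] [Algebra.IsAlgebraic K M]
    [Algebra (AlgebraicClosure F) M] [Algebra F M] [IsScalarTower F (AlgebraicClosure F) M]
    (𝒱 : Set (ValuationSubring M))
    (h𝒱 : ∀ V ∈ 𝒱, ∀ a : AlgebraicClosure F, algebraMap (AlgebraicClosure F) M a ∈ V)
    (hrad : ∀ ρ : M, UnV 𝒱 ρ → ∃ β : M, β ^ p = ρ)
    (s : Gal(AlgebraicClosure F/F) →* Gal(M/K)) (hs : Continuous s)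
    (hsec : ∀ σ a, s σ (algebraMap (AlgebraicClosure F) M a) =
      algebraMap (AlgebraicClosure F) M (σ a))
    (h𝒱s : ∀ V ∈ 𝒱, ∀ σ, V.comap (s σ : M →+* M) ∈ 𝒱)
    {L : Type*} [Field L] [Algebra F L] [Algebra L M] [IsScalarTower F L M]
    (hL : ∀ (x : L) σ, s σ (algebraMap L M x) = algebraMap L M x)
    (hfix : ∀ x : M, (∀ σ, s σ x = x) → ∃ y : L, algebraMap L M y = x)
    (ι : AlgebraicClosure F →ₐ[F] AlgebraicClosure (P.adicCompletion F))
    (A : ValuationSubring M)
    (φ : A →+* AlgebraicClosure (P.adicCompletion F))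
    (hφ : MP_2f3286_bir.IsPlaceOf s (P.adicCompletion F)
      (ι : _ →+* AlgebraicClosure (P.adicCompletion F)) A φ) :
    ∃ D : DataP p P ζ L, (∀ (x : L) (y : P.adicCompletion F),
      D.pl.Has x y ↔ ∃ h : algebraMap L M x ∈ A, φ ⟨_, h⟩ = algebraMap _ _ y) ∧
      ∀ x, x ∈ D.W ↔ UnV 𝒱 (algebraMap L M x) := by
  classical
  have hp0 : p ≠ 0 := hp.ne_zero
  have hodd : Odd p := hp.odd_of_ne_two hp2
  obtain ⟨Q, hQb, hQ⟩ := exists_plc s hL ι A φ hφ
  have hFL : ∀ a : F, algebraMap L M (algebraMap F L a) =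
      algebraMap (AlgebraicClosure F) M (algebraMap F (AlgebraicClosure F) a) := by
    intro a
    rw [← IsScalarTower.algebraMap_apply F L M,
      ← IsScalarTower.algebraMap_apply F (AlgebraicClosure F) M]
  have hadd : ∀ r : L, UnV 𝒱 (algebraMap L M r) → UnV 𝒱 (algebraMap L M (r ^ p + 1)) →
      ∀ i : ℕ, UnV 𝒱 (algebraMap L M (r + algebraMap F L (ζ ^ i))) := by
    intro r hr hr1 i
    have hzp : (algebraMap L M (algebraMap F L (ζ ^ i))) ^ p = 1 := by
      rw [← map_pow, ← map_pow, ← pow_mul, mul_comm, pow_mul, hζ.pow_eq_one, one_pow, map_one,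
        map_one]
    have hzV : ∀ V ∈ 𝒱, algebraMap L M (algebraMap F L (ζ ^ i)) ∈ V := by
      intro V hV
      rw [hFL]
      exact h𝒱 V hV _
    rw [map_add]
    have h1 := factor_mul hodd hzp (algebraMap L M r)
    rw [map_add, map_pow, map_one, ← h1] at hr1
    exact hr1.of_mul (fun V hV => add_mem (hr.2 V hV).1 (hzV V hV))
      (fun V hV => sum_mem fun j _ => mul_mem (pow_mem (hr.2 V hV).1 j)
        (pow_mem (neg_mem (hzV V hV)) _))
  refine ⟨⟨Q, hQb, {x | UnV 𝒱 (algebraMap L M x)}, fun u hu v hv => ?_, fun u hu => ?_,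
    fun a ha => ?_, fun u hu => ?_, hadd, fun r hr hr1 hgood i j hi hj => ?_⟩, hQ,
    fun x => Iff.rfl⟩
  · change UnV 𝒱 (algebraMap L M (u * v))
    rw [map_mul]
    exact UnV.mul hu hv
  · change UnV 𝒱 (algebraMap L M u⁻¹)
    rw [map_inv₀]
    exact UnV.inv hu
  · change UnV 𝒱 (algebraMap L M (algebraMap F L a))
    rw [hFL]
    exact UnV.of_const h𝒱 ((_root_.map_ne_zero _).2 ha)
  · have h1 : UnV 𝒱 (algebraMap L M (u ^ p)) := hu
    rw [map_pow] at h1
    exact h1.of_pow hp0
  · have hWi := hadd r hr hr1 i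
    have hWj := hadd r hr hr1 j
    obtain ⟨hnc, e, he, hPe, q, hq⟩ := hgood
    set u : M := algebraMap L M (r + algebraMap F L (ζ ^ i)) /
      algebraMap L M (r + algebraMap F L (ζ ^ j)) with hu
    have huU : UnV 𝒱 u := by
      rw [hu, div_eq_mul_inv]
      exact hWi.mul hWj.inv
    obtain ⟨β, hβ⟩ := hrad u huU
    have hus : ∀ σ, s σ u = u := by
      intro σ
      rw [hu, map_div₀, hL, hL]
    obtain ⟨c, hc, y, hy, hy0, hxy⟩ := kum_root s hs hsec hus huU.1
      (Nat.one_le_iff_ne_zero.2 hp0) hβ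
    obtain ⟨g, hg⟩ := hfix y hy
    have hrel : algebraMap L M (r + algebraMap F L (ζ ^ i)) =
        algebraMap (AlgebraicClosure F) M (algebraMap F (AlgebraicClosure F) c) * y ^ p *
          algebraMap L M (r + algebraMap F L (ζ ^ j)) := by
      rw [← hxy, hu, div_mul_cancel₀ _ hWj.1]
    refine ⟨c, hc, fun w hw => ?_, g, ?_, ?_⟩
    · refine pv_quot s hs hsec hp hp2 𝒱 h𝒱 hrad h𝒱s hζ w (hP w hw) (r := algebraMap L M r)
        (fun σ => hL r σ) hr (fun i => ?_) he (hPe w hw) (q := algebraMap L M q)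
        (fun σ => hL q σ) ?_ hi hj hc hy ?_
      · have h1 := hadd r hr hr1 i
        rwa [map_add, hFL] at h1
      · have h1 := congrArg (algebraMap L M) hq
        rw [map_add, map_pow, map_one, map_mul, map_pow, hFL] at h1
        exact h1
      · have h1 := hrel
        rw [map_add, map_add, hFL, hFL] at h1
        exact h1
    · rintro rfl
      rw [map_zero] at hg
      exact hy0 hg.symm
    · apply (algebraMap L M).injective
      rw [hrel, map_mul (algebraMap L M) _ (r + _), map_mul (algebraMap L M) _ (g ^ p),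
        map_pow (algebraMap L M) g, hg, hFL]

end Pool.Agent.Lib.MP_2f3286_ag.Fer.Tp
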