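import Pool.Agent.Lib.MP_2f3286_ag.Fer.Tp.NV
import Pool.Agent.Lib.MP_2f3286_ag.Fer.Tp.SE
import Pool.Agent.Lib.MP_2f3286_ag.Fer.Tp.TR
import Pool.Agent.Lib.MP_2f3286_ag.Fer.Cst

/-!
# The value of a section at the prime above `p`, over the cyclotomic field
-/

open IsDedekindDomain NumberField
open scoped WithZero
open Pool.Agent.Lib.MP_2f3286_bir (IsPlaceOf)

namespace Pool.Agent.Lib.MP_2f3286_ag.Fer.Tp

open Pool.Agent.Lib.MP_2f3286_ag.Fer.Ty

theorem locp_F {p : ℕ} {F : Type*} [Field F] [NumberField F] (X : Stp p F)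
    {K : Type*} [Field K] [Algebra F K]
    {M : Type*} [Field M] [Algebra K M] [Algebra.IsAlgebraic K M]
    [Algebra (AlgebraicClosure F) M] [Algebra F M]
    [IsScalarTower F K M] [IsScalarTower F (AlgebraicClosure F) M]
    (𝒱 : Set (ValuationSubring M))
    (h𝒱 : ∀ V ∈ 𝒱, ∀ a : AlgebraicClosure F, algebraMap (AlgebraicClosure F) M a ∈ V)
    (hrad : ∀ ρ : M, UnV 𝒱 ρ → ∃ β : M, β ^ p = ρ)
    (s : Gal(AlgebraicClosure F/F) →* Gal(M/K)) (hs : Continuous s)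
    (hsec : ∀ σ a, s σ (algebraMap (AlgebraicClosure F) M a) =
      algebraMap (AlgebraicClosure F) M (σ a))
    (h𝒱s : ∀ V ∈ 𝒱, ∀ σ, V.comap (s σ : M →+* M) ∈ 𝒱)
    (hfix : ∀ x : M, (∀ σ, s σ x = x) → ∃ y : K, algebraMap K M y = x)
    (ι : AlgebraicClosure F →ₐ[F] AlgebraicClosure (X.P.adicCompletion F))
    (A : ValuationSubring M)
    (φ : A →+* AlgebraicClosure (X.P.adicCompletion F))
    (hφ : IsPlaceOf s (X.P.adicCompletion F)
      (ι : _ →+* AlgebraicClosure (X.P.adicCompletion F)) A φ)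
    (x y : K) (hx : ∀ c : F, x ≠ algebraMap F K c) (hxy : x ^ p + y ^ p = 1)
    (hxU : UnV 𝒱 (algebraMap K M x)) (hyU : UnV 𝒱 (algebraMap K M y)) :
    ∃ r : K, (r = -x ∨ r = -y ∨ r = y / x) ∧
      ∃ h : algebraMap K M (-(r ^ p)) ∈ A, φ ⟨_, h⟩ = 1 := by
  classical
  have hp := X.hp
  have hp0 : p ≠ 0 := hp.ne_zero
  have hodd : Odd p := hp.odd_of_ne_two X.h2
  have halgx : ∀ u : K, IsAlgebraic F (u ^ p) → ∃ c : F, u = algebraMap F K c := fun u hu =>
    const_of_algebraic s hsec (hu.of_pow (Nat.pos_of_ne_zero hp0))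
  have hx' : ¬ IsAlgebraic F (x ^ p) := by
    intro h
    obtain ⟨c, hc⟩ := halgx x h
    exact hx c hc
  have hx0 : x ≠ 0 := by
    intro h
    exact hx 0 (by rw [h, map_zero])
  have hy : ∀ c : F, y ≠ algebraMap F K c := by
    intro c hc
    apply hx'
    have h1 : x ^ p = algebraMap F K (1 - c ^ p) := by
      rw [map_sub, map_one, map_pow, ← hc]
      linear_combination hxy
    rw [h1]
    exact isAlgebraic_algebraMap _
  have hyx : ∀ c : F, y / x ≠ algebraMap F K c := by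
    intro c hc
    apply hx'
    have h1 : x ^ p * (1 + algebraMap F K c ^ p) = 1 := by
      rw [← hc, div_pow]
      have := pow_ne_zero p hx0
      field_simp
      exact hxy
    have h2 : x ^ p = algebraMap F K (1 + c ^ p)⁻¹ := by
      rw [map_inv₀, map_add, map_one, map_pow]
      exact eq_inv_of_mul_eq_one_left h1
    rw [h2]
    exact isAlgebraic_algebraMap _
  obtain ⟨D, hD, hDW⟩ := exists_dataP (L := K) hp X.h2 X.hζ X.away 𝒱 h𝒱 hrad s hs hsec h𝒱s
    (fun x σ => (s σ).commutes x) hfix ι A φ hφ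
  obtain ⟨r, hr, hgood, ⟨q, hq⟩, ρ, hρ, hρ1⟩ := select X D hxy hx hy hyx ((hDW x).2 hxU)
    ((hDW y).2 hyU)
  obtain ⟨j, hgood', hval⟩ := value X D hgood hq hρ hρ1
  have hζp : algebraMap F K X.ζ ^ p = 1 := by rw [← map_pow, X.hζ.pow_eq_one, map_one]
  have htr' : (algebraMap F K X.ζ ^ j * r) ^ p = r ^ p := by
    rw [mul_pow, ← pow_mul, mul_comm j p, pow_mul, hζp, one_pow, one_mul]
  refine ⟨r, hr, ?_⟩
  have h1 : D.pl.Has (-(r ^ p)) 1 := by
    have h2 := (hval.pow p).neg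
    rw [htr', hodd.neg_one_pow, neg_neg] at h2
    exact h2
  obtain ⟨h2, h3⟩ := (hD _ _).1 h1
  exact ⟨h2, by rw [h3, map_one]⟩

end Pool.Agent.Lib.MP_2f3286_ag.Fer.Tp
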