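import Pool.Agent.Lib.MP_2f3286_ag.Fer.Z0

/-!
# Step zero at one place
-/

open IsDedekindDomain NumberField
open scoped WithZero

namespace Pool.Agent.Lib.MP_2f3286_ag.Fer.Tp

theorem plc_mul_pow_has {F L : Type*} [Field F] [NumberField F] [Field L] [Algebra F L]
    {w : HeightOneSpectrum (𝓞 F)} (Q : Plc L (w.adicCompletion F))
    (hQ : ∀ a : F, Q.Has (algebraMap F L a) (algebraMap F (w.adicCompletion F) a))
    {a : F} (ha : a ≠ 0) {g : L} {n : ℕ}
    (hn : n ≠ 0) {y : w.adicCompletion F} (hy : y ≠ 0)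
    (h : Q.Has (algebraMap F L a * g ^ n) y) :
    ∃ x, x ≠ 0 ∧ Q.Has g x ∧ y = algebraMap F (w.adicCompletion F) a * x ^ n := by
  have ha' : algebraMap F (w.adicCompletion F) a ≠ 0 := by
    rw [Ne, FaithfulSMul.algebraMap_eq_zero_iff]
    exact ha
  have haL : algebraMap F L a ≠ 0 := by
    rw [Ne, FaithfulSMul.algebraMap_eq_zero_iff]
    exact ha
  have h1 := h.div (hQ a) ha'
  rw [mul_div_cancel_left₀ _ haL] at h1
  obtain ⟨x, hx, hxn⟩ := Plc.pow_has hn h1
  have h2 : y = algebraMap F (w.adicCompletion F) a * x ^ n := by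
    rw [hxn, mul_div_cancel₀ _ ha']
  refine ⟨x, ?_, hx, h2⟩
  rintro rfl
  rw [zero_pow hn, mul_zero] at h2
  exact hy h2

private theorem z0_log {p : ℕ} (hp : p ≠ 0) {k L : Type*} [Field k] [NumberField k] [Field L]
    [Algebra k L] (w : HeightOneSpectrum (𝓞 k)) (Q : Plc L (w.adicCompletion k))
    (hQ : ∀ a : k, Q.Has (algebraMap k L a) (algebraMap k (w.adicCompletion k) a))
    {a : k} (ha : a ≠ 0) {g : L}
    {y : w.adicCompletion k} (hy : y ≠ 0) (h : Q.Has (algebraMap k L a * g ^ p) y) :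
    (p : ℤ) ∣ WithZero.log (Valued.v y : ℤᵐ⁰) - WithZero.log (w.valuation k a) := by
  obtain ⟨x, hx0, _, hx⟩ := plc_mul_pow_has Q hQ ha hp hy h
  have h1 : (Valued.v y : ℤᵐ⁰) = w.valuation k a * (Valued.v x : ℤᵐ⁰) ^ p := by
    rw [hx, map_mul, map_pow, val_alg']
  have h2 : w.valuation k a ≠ 0 := (Valuation.ne_zero_iff _).2 ha
  have h3 : (Valued.v x : ℤᵐ⁰) ≠ 0 := (Valuation.ne_zero_iff _).2 hx0
  rw [h1, WithZero.log_mul h2 (pow_ne_zero _ h3), WithZero.log_pow, add_sub_cancel_left]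
  exact ⟨_, nsmul_eq_mul _ _⟩

private theorem z0_arith {p : ℕ} (hp : p.Prime) {a b n n' : ℤ} (ha : ¬ (p : ℤ) ∣ a)
    (hb : ¬ (p : ℤ) ∣ b) (hab : ¬ (p : ℤ) ∣ a + b) (h1 : (p : ℤ) ∣ a * n + b * n')
    (h2 : (p : ℤ) ∣ n ∨ (p : ℤ) ∣ n' ∨ (p : ℤ) ∣ n - n') : (p : ℤ) ∣ n ∧ (p : ℤ) ∣ n' := by
  have hq : Prime (p : ℤ) := Nat.prime_iff_prime_int.1 hp
  rcases h2 with h2 | h2 | h2
  · have h3 : (p : ℤ) ∣ b * n' := (dvd_add_right (Dvd.dvd.mul_left h2 a)).1 h1
    exact ⟨h2, (hq.dvd_or_dvd h3).resolve_left hb⟩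
  · have h3 : (p : ℤ) ∣ a * n := (dvd_add_left (Dvd.dvd.mul_left h2 b)).1 h1
    exact ⟨(hq.dvd_or_dvd h3).resolve_left ha, h2⟩
  · have h3 : (p : ℤ) ∣ (a + b) * n := by
      have h4 : (a + b) * n = (a * n + b * n') + b * (n - n') := by ring
      rw [h4]
      exact dvd_add h1 (Dvd.dvd.mul_left h2 b)
    have h5 := (hq.dvd_or_dvd h3).resolve_left hab
    refine ⟨h5, ?_⟩
    have h6 : n' = n - (n - n') := by ring
    rw [h6]
    exact dvd_sub h5 h2

private theorem z0_zpow {L : Type*} [Field L] (c x : L) (p : ℕ) (a : ℤ) :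
    (c * x ^ p) ^ a = c ^ a * (x ^ a) ^ p := by
  rw [mul_zpow, ← zpow_natCast, ← zpow_natCast, ← zpow_mul, ← zpow_mul, mul_comm (p : ℤ) a]

/-- step zero at a place -/
theorem z0_place {p : ℕ} (hp : p.Prime) {k L : Type*} [Field k] [NumberField k] [Field L]
    [Algebra k L] (w : HeightOneSpectrum (𝓞 k)) (Q : Plc L (w.adicCompletion k))
    (hQ : ∀ a : k, Q.Has (algebraMap k L a) (algebraMap k (w.adicCompletion k) a))
    {A B x y : L} (hA0 : A ≠ 0) (hA1 : 1 - A ≠ 0) {c c' : k} (hc : c ≠ 0) (hc' : c' ≠ 0)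
    (hx : A = algebraMap k L c * x ^ p) (hy : 1 - A = algebraMap k L c' * y ^ p)
    {a b : ℤ} (ha : ¬ (p : ℤ) ∣ a)
    (hb : ¬ (p : ℤ) ∣ b) (hab : ¬ (p : ℤ) ∣ a + b) (h : A ^ a * (1 - A) ^ b = B ^ p) :
    PV p w c ∧ PV p w c' := by
  have hp0 : p ≠ 0 := hp.ne_zero
  have hx0 : x ≠ 0 := by
    rintro rfl
    rw [zero_pow hp0, mul_zero] at hx
    exact hA0 hx
  have hy0 : y ≠ 0 := by
    rintro rfl
    rw [zero_pow hp0, mul_zero] at hy
    exact hA1 hy
  have key : (p : ℤ) ∣ WithZero.log (w.valuation k c) ∧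
      (p : ℤ) ∣ WithZero.log (w.valuation k c') := by
    have hv : ∀ {u : k}, u ≠ 0 → w.valuation k u ≠ 0 := fun hu => (Valuation.ne_zero_iff _).2 hu
    apply z0_arith hp ha hb hab
    · have hcc : c ^ a * c' ^ b ≠ 0 := mul_ne_zero (zpow_ne_zero _ hc) (zpow_ne_zero _ hc')
      have hg : algebraMap k L (c ^ a * c' ^ b) =
          algebraMap k L 1 * (B / (x ^ a * y ^ b)) ^ p := by
        have hAa : A ^ a = (algebraMap k L c) ^ a * (x ^ a) ^ p := by
          rw [hx, z0_zpow]
        have hBb : (1 - A) ^ b = (algebraMap k L c') ^ b * (y ^ b) ^ p := by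
          rw [hy, z0_zpow]
        have hne : (x ^ a * y ^ b) ^ p ≠ 0 :=
          pow_ne_zero _ (mul_ne_zero (zpow_ne_zero _ hx0) (zpow_ne_zero _ hy0))
        rw [map_one, one_mul, div_pow, eq_div_iff hne, ← h, hAa, hBb, map_mul, map_zpow₀,
          map_zpow₀, mul_pow]
        ring
      have h1 := hQ (c ^ a * c' ^ b)
      rw [hg] at h1
      have h2 := z0_log hp0 w Q hQ one_ne_zero ((map_ne_zero _).2 hcc) h1
      rw [val_alg', map_one, WithZero.log_one, sub_zero, map_mul, map_zpow₀, map_zpow₀,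
        WithZero.log_mul (zpow_ne_zero _ (hv hc)) (zpow_ne_zero _ (hv hc')), WithZero.log_zpow,
        WithZero.log_zpow, smul_eq_mul, smul_eq_mul] at h2
      exact h2
    · rcases Q.has_or_inv A with ⟨α, hα⟩ | ⟨_, hinv⟩
      · have h1α : Q.Has (1 - A) (1 - α) := Plc.has_one.sub hα
        rw [hy] at h1α
        rw [hx] at hα
        rcases lt_trichotomy (Valued.v α : ℤᵐ⁰) 1 with hlt | heq | hgt
        · right
          left
          have hv1 : (Valued.v (1 - α) : ℤᵐ⁰) = 1 := Valuation.map_one_sub_of_lt _ hlt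
          have hne : 1 - α ≠ 0 := by
            intro h0
            rw [h0, map_zero] at hv1
            exact zero_ne_one hv1
          have h2 := z0_log hp0 w Q hQ hc' hne h1α
          rw [hv1, WithZero.log_one, zero_sub, dvd_neg] at h2
          exact h2
        · left
          have hne : α ≠ 0 := by
            intro h0
            rw [h0, map_zero] at heq
            exact zero_ne_one heq
          have h2 := z0_log hp0 w Q hQ hc hne hα
          rw [heq, WithZero.log_one, zero_sub, dvd_neg] at h2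
          exact h2
        · right
          right
          have hv1 : (Valued.v (1 - α) : ℤᵐ⁰) = Valued.v α :=
            Valuation.map_sub_eq_of_lt_right _ (by rw [map_one]; exact hgt)
          have hne : α ≠ 0 := by
            intro h0
            rw [h0, map_zero] at hgt
            exact absurd hgt not_lt_zero'
          have hne' : 1 - α ≠ 0 := by
            intro h0
            rw [h0, map_zero] at hv1
            rw [← hv1] at hgt
            exact absurd hgt not_lt_zero'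
          have e1 := z0_log hp0 w Q hQ hc hne hα
          have e2 := z0_log hp0 w Q hQ hc' hne' h1α
          rw [hv1] at e2
          have e3 := dvd_sub e2 e1
          rw [sub_sub_sub_cancel_left] at e3
          exact e3
      · right
        right
        have h1 : Q.Has (A⁻¹ - 1) (-1) := by
          have h2 := hinv.sub Plc.has_one
          rw [zero_sub] at h2
          exact h2
        have h2 : A⁻¹ - 1 = algebraMap k L (c' / c) * (y / x) ^ p := by
          rw [map_div₀, div_pow, div_mul_div_comm, ← hx, ← hy, sub_div, div_self hA0, one_div]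
        rw [h2] at h1
        have h3 := z0_log hp0 w Q hQ (div_ne_zero hc' hc) (neg_ne_zero.2 one_ne_zero) h1
        rw [Valuation.map_neg, map_one, WithZero.log_one, map_div₀,
          WithZero.log_div (hv hc') (hv hc), zero_sub, neg_sub] at h3
        exact h3
  exact ⟨(pv_iff_dvd hp0 w hc).2 key.1, (pv_iff_dvd hp0 w hc').2 key.2⟩

end Pool.Agent.Lib.MP_2f3286_ag.Fer.Tp
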