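import Pool.Agent.Lib.MP_2f3286_ag.Fer.Tp.FullF
import Pool.Agent.Lib.MP_2f3286_ag.Fer.Tp.Z0
import Pool.Agent.Lib.MP_2f3286_ag.Fer.Tp.KP
import Pool.Agent.Lib.MP_2f3286_ag.Fer.FullM

/-!
# The value of a section at the prime above `p`, over a subfield of the cyclotomic field
-/

open IsDedekindDomain NumberField
open scoped WithZero
open Pool.Agent.Lib.MP_2f3286_bir (IsPlaceOf)

namespace Pool.Agent.Lib.MP_2f3286_ag.Fer.Tp

open Pool.Agent.Lib.MP_2f3286_ag.Fer.Ty

theorem locp_k {p : ℕ} {F : Type*} [Field F] [NumberField F] (X : Stp p F)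
    {k : Type*} [Field k] [NumberField k] [Algebra k F] (hm : ¬ p ∣ Module.finrank k F)
    {K : Type*} [Field K] [Algebra k K]
    {M : Type*} [Field M] [Algebra K M] [Algebra.IsAlgebraic K M]
    [Algebra (AlgebraicClosure k) M] [Algebra k M]
    [IsScalarTower k K M] [IsScalarTower k (AlgebraicClosure k) M]
    [Algebra F (AlgebraicClosure k)] [IsScalarTower k F (AlgebraicClosure k)]
    (𝒱 : Set (ValuationSubring M))
    (h𝒱 : ∀ V ∈ 𝒱, ∀ a : AlgebraicClosure k, algebraMap (AlgebraicClosure k) M a ∈ V)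
    (hrad : ∀ ρ : M, UnV 𝒱 ρ → ∃ β : M, β ^ p = ρ)
    (s : Gal(AlgebraicClosure k/k) →* Gal(M/K)) (hs : Continuous s)
    (hsec : ∀ σ a, s σ (algebraMap (AlgebraicClosure k) M a) =
      algebraMap (AlgebraicClosure k) M (σ a))
    (h𝒱s : ∀ V ∈ 𝒱, ∀ σ, V.comap (s σ : M →+* M) ∈ 𝒱)
    (v : HeightOneSpectrum (𝓞 k)) (hv : (p : 𝓞 k) ∈ v.asIdeal)
    (ι : AlgebraicClosure k →ₐ[k] AlgebraicClosure (v.adicCompletion k))
    (A' : ValuationSubring M)
    (φ : A' →+* AlgebraicClosure (v.adicCompletion k))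
    (hφ : IsPlaceOf s (v.adicCompletion k)
      (ι : _ →+* AlgebraicClosure (v.adicCompletion k)) A' φ)
    (A : K) (hA : ∀ c : k, A ≠ algebraMap k K c) (hAU : UnV 𝒱 (algebraMap K M A))
    (hAU' : UnV 𝒱 (algebraMap K M (1 - A)))
    (h : (∃ x y : K, x ^ p = A ∧ y ^ p = 1 - A) ∨
      ((∀ u : (𝓞 k)ˣ, ∃ v : (𝓞 k)ˣ, v ^ p = u) ∧ ∃ (a b : ℤ) (B : K), ¬ (p : ℤ) ∣ a ∧
        ¬ (p : ℤ) ∣ b ∧ ¬ (p : ℤ) ∣ a + b ∧ A ^ a * (1 - A) ^ b = B ^ p)) :
    ∃ B : K, (B = A ∨ B = 1 - A ∨ B = 1 - A⁻¹) ∧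
      ∃ h : algebraMap K M B ∈ A', φ ⟨_, h⟩ = 1 := by
  classical
  have hp := X.hp
  have hp0 : p ≠ 0 := hp.ne_zero
  have hodd : Odd p := hp.odd_of_ne_two X.h2
  have hfin : FiniteDimensional k F := FiniteDimensional.right ℚ k F
  have hkF : Algebra.IsAlgebraic k F := inferInstance
  have hFk : Algebra.IsAlgebraic F (AlgebraicClosure k) :=
    Algebra.IsAlgebraic.tower_top (K := k) F
  have : IsAlgClosure F (AlgebraicClosure k) := ⟨inferInstance, inferInstance⟩
  let e : AlgebraicClosure F ≃ₐ[F] AlgebraicClosure k :=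
    IsAlgClosure.equiv F (AlgebraicClosure F) (AlgebraicClosure k)
  letI iFb : Algebra (AlgebraicClosure F) M :=
    ((algebraMap (AlgebraicClosure k) M).comp (e : _ →+* AlgebraicClosure k)).toAlgebra
  letI iFM : Algebra F M :=
    ((algebraMap (AlgebraicClosure k) M).comp (algebraMap F (AlgebraicClosure k))).toAlgebra
  have t0 : IsScalarTower F (AlgebraicClosure k) M := IsScalarTower.of_algebraMap_eq fun _ => rfl
  have he : ∀ a : AlgebraicClosure F, algebraMap (AlgebraicClosure F) M a =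
      algebraMap (AlgebraicClosure k) M (e a) := fun _ => rfl
  have t1 : IsScalarTower F (AlgebraicClosure F) M := IsScalarTower.of_algebraMap_eq fun a => by
    rw [he, AlgEquiv.commutes, ← IsScalarTower.algebraMap_apply]
  have t3 : IsScalarTower k F M := IsScalarTower.of_algebraMap_eq fun a => by
    rw [IsScalarTower.algebraMap_apply F (AlgebraicClosure k) M,
      ← IsScalarTower.algebraMap_apply k F (AlgebraicClosure k),
      ← IsScalarTower.algebraMap_apply k (AlgebraicClosure k) M]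
  letI iFL : Algebra F (Koe.fixF s F) := (Koe.toFixF s F hsec).toAlgebra
  have t2 : IsScalarTower F (Koe.fixF s F) M := IsScalarTower.of_algebraMap_eq fun a => by
    rw [IsScalarTower.algebraMap_apply F (AlgebraicClosure k) M]
    rfl
  have hLM : Algebra.IsAlgebraic (Koe.fixF s F) M :=
    Algebra.IsAlgebraic.tower_top (K := K) (Koe.fixF s F)
  have hL : ∀ σ : Gal(AlgebraicClosure k/k),
      (∀ a : F, σ (algebraMap F _ a) = algebraMap F _ a) →
      ∀ x : Koe.fixF s F, s σ (algebraMap (Koe.fixF s F) M x) = algebraMap (Koe.fixF s F) M x :=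
    fun σ hσ x => x.2 σ hσ
  have hs' := Koe.resS_continuous s e hL hs
  have hsec' : ∀ (σ : Gal(AlgebraicClosure F/F)) (a : AlgebraicClosure F),
      Koe.resS s e hL σ (algebraMap (AlgebraicClosure F) M a) =
        algebraMap (AlgebraicClosure F) M (σ a) := by
    intro σ a
    rw [Koe.resS_apply, he, hsec, Koe.resG_apply, e.symm_apply_apply, he]
  have hfix : ∀ z : M, (∀ σ, Koe.resS s e hL σ z = z) →
      ∃ y : Koe.fixF s F, algebraMap (Koe.fixF s F) M y = z := by
    intro z hz
    refine ⟨⟨z, fun σ hσ => ?_⟩, rfl⟩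
    obtain ⟨τ, hτ, -⟩ := Koe.resG_surj e σ hσ
    rw [← hτ, ← Koe.resS_apply s e hL τ z]
    exact hz τ
  have h𝒱' : ∀ V ∈ 𝒱, ∀ a : AlgebraicClosure F, algebraMap (AlgebraicClosure F) M a ∈ V :=
    fun V hV a => h𝒱 V hV _
  have h𝒱s' : ∀ V ∈ 𝒱, ∀ σ, V.comap (Koe.resS s e hL σ : M →+* M) ∈ 𝒱 :=
    fun V hV σ => h𝒱s V hV _
  -- the place over the cyclotomic field
  have hgal : IsGalois k (AlgebraicClosure k) := IsAlgClosure.isGalois k _
  have hgalF : IsGalois F (AlgebraicClosure F) := IsAlgClosure.isGalois F _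
  obtain ⟨w, hwv⟩ := exists_prime_over (E := F) v
  have hwP : w = X.P := by
    by_contra hne
    apply X.away w hne
    have h1 := (Ideal.mem_of_liesOver w.asIdeal v.asIdeal ((p : 𝓞 k))).1 hv
    rwa [map_natCast] at h1
  subst hwP
  obtain ⟨ι', B', φ', hB', j₀, -, hj₀⟩ := exists_local_val s hsec e he hL v X.P _ _ _ hφ
  -- the functions `x` and `y`
  have hsA : ∀ σ, s σ (algebraMap K M A) = algebraMap K M A := fun σ => (s σ).commutes A
  have hA1 : ∀ c : k, 1 - A ≠ algebraMap k K c := by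
    intro c hc
    apply hA (1 - c)
    rw [map_sub, map_one, ← hc, sub_sub_cancel]
  have h3 : ∃ x y : M, (∀ σ, s σ x = x) ∧ (∀ σ, s σ y = y) ∧ x ^ p = algebraMap K M A ∧
      y ^ p = algebraMap K M (1 - A) := by
    rcases h with ⟨x, y, hx, hy⟩ | ⟨hu, a, b, B, ha, hb, hab, hB⟩
    · exact ⟨algebraMap K M x, algebraMap K M y, fun σ => (s σ).commutes x,
        fun σ => (s σ).commutes y, by rw [← map_pow, hx], by rw [← map_pow, hy]⟩
    · obtain ⟨β, hβ⟩ := hrad _ hAU
      obtain ⟨β', hβ'⟩ := hrad _ hAU'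
      obtain ⟨c, hc, x, hx, hx0, hxA⟩ := kum_root s hs hsec hsA hAU.1
        (Nat.one_le_iff_ne_zero.2 hp0) hβ
      obtain ⟨c', hc', y, hy, hy0, hyA⟩ := kum_root s hs hsec (fun σ => (s σ).commutes (1 - A))
        hAU'.1 (Nat.one_le_iff_ne_zero.2 hp0) hβ'
      have hcF : algebraMap k F c ≠ 0 := (_root_.map_ne_zero _).2 hc
      have hcF' : algebraMap k F c' ≠ 0 := (_root_.map_ne_zero _).2 hc'
      have hkFM : ∀ c : k, algebraMap (AlgebraicClosure F) M
          (algebraMap F (AlgebraicClosure F) (algebraMap k F c)) =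
          algebraMap (AlgebraicClosure k) M (algebraMap k (AlgebraicClosure k) c) := by
        intro c
        rw [← IsScalarTower.algebraMap_apply F (AlgebraicClosure F) M,
          ← IsScalarTower.algebraMap_apply k F M,
          ← IsScalarTower.algebraMap_apply k (AlgebraicClosure k) M]
      have hBM : (algebraMap K M A) ^ a * (1 - algebraMap K M A) ^ b = (algebraMap K M B) ^ p := by
        rw [← map_one (algebraMap K M), ← map_sub, ← map_zpow₀, ← map_zpow₀, ← map_mul, hB,
          map_pow]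
      have h1A : algebraMap K M (1 - A) = 1 - algebraMap K M A := by rw [map_sub, map_one]
      -- away from `p`
      have haway : ∀ w : HeightOneSpectrum (𝓞 F), w ≠ X.P →
          PV p w (algebraMap k F c) ∧ PV p w (algebraMap k F c') := by
        intro w hw
        refine pv_zero (Koe.resS s e hL) hs' hsec' hp 𝒱 h𝒱' hrad h𝒱s' X.hζ w (X.away w hw)
          (A := algebraMap K M A) (B := algebraMap K M B) (x := x) (y := y)
          (fun σ => hsA _) (fun σ => (s _).commutes B) (fun σ => hx _) (fun σ => hy _) hAU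
          (by rw [← h1A]; exact hAU') hcF hcF' ?_ ?_ ha hb hab hBM
        · rw [hkFM]
          exact hxA
        · rw [hkFM, ← h1A]
          exact hyA
      -- the prime above `p`
      have hPl : PV p X.P (algebraMap k F c) ∧ PV p X.P (algebraMap k F c') := by
        obtain ⟨Q, hQb, -⟩ := exists_plc (Koe.resS s e hL) (L := Koe.fixF s F)
          (fun x σ => (Koe.resS s e hL σ).commutes x) ι' B' φ' hB'
        let xL : Koe.fixF s F := ⟨x, fun σ _ => hx σ⟩
        let yL : Koe.fixF s F := ⟨y, fun σ _ => hy σ⟩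
        refine z0_place hp X.P Q hQb (A := algebraMap K (Koe.fixF s F) A)
          (B := algebraMap K (Koe.fixF s F) B) (x := xL) (y := yL) ?_ ?_ hcF hcF' ?_ ?_ ha hb
          hab ?_
        · intro h0
          exact hAU.1 (congrArg (algebraMap (Koe.fixF s F) M) h0 |>.trans (map_zero _))
        · intro h0
          apply hAU'.1
          have h4 := congrArg (algebraMap (Koe.fixF s F) M) h0
          rw [map_sub, map_one, map_zero] at h4
          rw [h1A]
          exact h4
        · apply (algebraMap (Koe.fixF s F) M).injective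
          rw [map_mul, map_pow, ← IsScalarTower.algebraMap_apply F (Koe.fixF s F) M,
            ← IsScalarTower.algebraMap_apply k F M,
            IsScalarTower.algebraMap_apply k (AlgebraicClosure k) M]
          exact hxA
        · apply (algebraMap (Koe.fixF s F) M).injective
          rw [map_mul, map_pow, ← IsScalarTower.algebraMap_apply F (Koe.fixF s F) M,
            ← IsScalarTower.algebraMap_apply k F M,
            IsScalarTower.algebraMap_apply k (AlgebraicClosure k) M, map_sub, map_one]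
          change 1 - algebraMap K M A = _
          rw [← h1A]
          exact hyA
        · rw [← map_one (algebraMap K (Koe.fixF s F)), ← map_sub, ← map_zpow₀, ← map_zpow₀,
            ← map_mul, hB, map_pow]
      have hall : ∀ w : HeightOneSpectrum (𝓞 F),
          PV p w (algebraMap k F c) ∧ PV p w (algebraMap k F c') := by
        intro w
        by_cases hw : w = X.P
        · rw [hw]
          exact hPl
        · exact haway w hw
      obtain ⟨d, hd⟩ := k_pow_F hp X.cls hm hu hc fun w => (hall w).1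
      obtain ⟨d', hd'⟩ := k_pow_F hp X.cls hm hu hc' fun w => (hall w).2
      refine ⟨algebraMap (AlgebraicClosure k) M (algebraMap k (AlgebraicClosure k) d) * x,
        algebraMap (AlgebraicClosure k) M (algebraMap k (AlgebraicClosure k) d') * y,
        fun σ => ?_, fun σ => ?_, ?_, ?_⟩
      · rw [map_mul, hsec, AlgEquiv.commutes, hx]
      · rw [map_mul, hsec, AlgEquiv.commutes, hy]
      · rw [mul_pow, ← map_pow, ← map_pow, hd, ← hxA]
      · rw [mul_pow, ← map_pow, ← map_pow, hd', ← hyA]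
  obtain ⟨x, y, hsx, hsy, hxA, hyA⟩ := h3
  have hxy : x ^ p + y ^ p = 1 := by rw [hxA, hyA, map_sub, map_one]; ring
  have hxU : UnV 𝒱 x := UnV.of_pow hp0 (by rw [hxA]; exact hAU)
  have hyU : UnV 𝒱 y := UnV.of_pow hp0 (by rw [hyA]; exact hAU')
  have hxc : ∀ c : AlgebraicClosure k, x ≠ algebraMap _ M c := by
    intro c hc
    apply not_const_M s hsec hA (c ^ p)
    rw [← hxA, hc, map_pow]
  have hx0 : x ≠ 0 := hxU.1
  have hxp : x ^ p ≠ 0 := pow_ne_zero _ hx0
  obtain ⟨r, hr, h4, h5⟩ := locp_F X 𝒱 h𝒱' hrad (Koe.resS s e hL) hs' hsec' h𝒱s' hfix ι' B' φ'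
    hB' ⟨x, fun σ _ => hsx σ⟩ ⟨y, fun σ _ => hsy σ⟩ (fun c hc => by
      apply hxc (algebraMap F (AlgebraicClosure k) c)
      have h4 := congrArg (algebraMap (Koe.fixF s F) M) hc
      rw [← IsScalarTower.algebraMap_apply F (Koe.fixF s F) M] at h4
      rw [← IsScalarTower.algebraMap_apply F (AlgebraicClosure k) M]
      exact h4) (Subtype.ext hxy) hxU hyU
  have hrB : ∃ C : K, (C = A ∨ C = 1 - A ∨ C = 1 - A⁻¹) ∧
      algebraMap (Koe.fixF s F) M (-(r ^ p)) = algebraMap K M C := by
    rcases hr with hr | hr | hr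
    · refine ⟨A, Or.inl rfl, ?_⟩
      rw [hr, hodd.neg_pow, neg_neg, ← hxA]
      rfl
    · refine ⟨1 - A, Or.inr (Or.inl rfl), ?_⟩
      rw [hr, hodd.neg_pow, neg_neg, ← hyA]
      rfl
    · refine ⟨1 - A⁻¹, Or.inr (Or.inr rfl), ?_⟩
      rw [hr, map_sub, map_one, map_inv₀, ← hxA, map_neg, map_pow, map_div₀, div_pow]
      change -(y ^ p / x ^ p) = 1 - (x ^ p)⁻¹
      field_simp
      linear_combination -hxy
  obtain ⟨C, hC, hrC⟩ := hrB
  have h6 : ∃ h' : algebraMap K M C ∈ B', φ' ⟨_, h'⟩ = algebraMap _ _ (1 : X.P.adicCompletion F) := by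
    refine ⟨hrC ▸ h4, ?_⟩
    rw [map_one, ← h5]
    congr 1
    exact Subtype.ext hrC.symm
  obtain ⟨h7, y', h8, h9⟩ := hj₀ C 1 h6
  refine ⟨C, hC, h7, ?_⟩
  have h10 : y' = 1 := j₀.injective (by rw [h9, map_one])
  rw [h8, h10, map_one]

end Pool.Agent.Lib.MP_2f3286_ag.Fer.Tp
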