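import Pool.Agent.Lib.MP_2f3286_ag.Fer.Tp.DS

/-!
# No finite level; the value is `-1`, with a place at the prime above `p` only
-/

open IsDedekindDomain NumberField
open scoped WithZero

namespace Pool.Agent.Lib.MP_2f3286_ag.Fer.Tp

variable {p : ℕ} {F : Type*} [Field F] [NumberField F] (X : Stp p F) {L : Type*}
    [Field L] [Algebra F L] (D : DataP p X.P X.ζ L)

theorem no_level (k : ℕ) {r : L} (hr : GoodU D r)
    {ρ : X.P.adicCompletion F} (hρ : D.pl.Has r ρ)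
    (h : Valued.v (ρ + 1) = WithZero.exp (-((p : ℤ) * (k + 1) + 1))) : False := by
  induction k generalizing r ρ with
  | zero =>
    obtain ⟨r', hr', -, ρ', hρ', hle, heq⟩ := step X D hr hρ (by
      rw [h, WithZero.exp_le_exp]
      push_cast
      linarith)
    rw [h, ← WithZero.exp_add] at heq
    have h1 : Valued.v (ρ' + 1) = WithZero.exp (-1 : ℤ) := by
      have h2 : Valued.v (ρ' + 1) * WithZero.exp (1 - (p : ℤ)) * WithZero.exp ((p : ℤ) - 1) =
          WithZero.exp (-((p : ℤ) * ((0 : ℕ) + 1) + 1) + 1) * WithZero.exp ((p : ℤ) - 1) := by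
        rw [heq]
      rw [mul_assoc, ← WithZero.exp_add, ← WithZero.exp_add] at h2
      rw [show (1 - (p : ℤ)) + ((p : ℤ) - 1) = 0 by ring, WithZero.exp_zero, mul_one] at h2
      rw [h2]
      congr 1
      push_cast
      ring
    rw [h1, WithZero.exp_le_exp] at hle
    norm_num at hle
  | succ k ih =>
    obtain ⟨r', hr', -, ρ', hρ', hle, heq⟩ := step X D hr hρ (by
      rw [h, WithZero.exp_le_exp]
      push_cast
      have : (0 : ℤ) ≤ (p : ℤ) * (k + 1) := by positivity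
      linarith)
    refine ih hr' hρ' ?_
    rw [h, ← WithZero.exp_add] at heq
    have h2 : Valued.v (ρ' + 1) * WithZero.exp (1 - (p : ℤ)) * WithZero.exp ((p : ℤ) - 1) =
        WithZero.exp (-((p : ℤ) * ((k + 1 : ℕ) + 1) + 1) + 1) * WithZero.exp ((p : ℤ) - 1) := by
      rw [heq]
    rw [mul_assoc, ← WithZero.exp_add, ← WithZero.exp_add] at h2
    rw [show (1 - (p : ℤ)) + ((p : ℤ) - 1) = 0 by ring, WithZero.exp_zero, mul_one] at h2
    rw [h2]
    congr 1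
    push_cast
    ring

theorem value {r q : L} (hr : GoodU D r) (hq : r ^ p + 1 = q ^ p)
    {ρ : X.P.adicCompletion F} (hρ : D.pl.Has r ρ) (h : Valued.v (ρ + 1) < (1 : ℤᵐ⁰)) :
    ∃ j : ℕ, GoodU D (algebraMap F L X.ζ ^ j * r) ∧
      D.pl.Has (algebraMap F L X.ζ ^ j * r) (-1) := by
  have hpodd : Odd p := X.hp.odd_of_ne_two X.h2
  have hp0 : p ≠ 0 := X.hp.ne_zero
  set z := algebraMap F (X.P.adicCompletion F) X.ζ with hz
  have h1 : Valued.v (-ρ - 1) < (1 : ℤᵐ⁰) := by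
    rw [show -ρ - 1 = -(ρ + 1) by ring, Valuation.map_neg]
    exact h
  obtain ⟨j, hj⟩ := X.loc.adjust X.hp h1
  have hzp : z ^ p = 1 := X.loc.root
  have hζp : algebraMap F L X.ζ ^ p = 1 := by
    rw [← map_pow, X.hζ.pow_eq_one, map_one]
  have hrp : (algebraMap F L X.ζ ^ j * r) ^ p = r ^ p := by
    rw [mul_pow, ← pow_mul, mul_comm j p, pow_mul, hζp, one_pow, one_mul]
  have hζ0 : X.ζ ≠ 0 := X.hζ.ne_zero hp0
  have hgood : GoodU D (algebraMap F L X.ζ ^ j * r) := by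
    obtain ⟨⟨hnc, e, he, hPV, q', hq'⟩, hW1, hW2⟩ := hr
    refine ⟨⟨fun c hc => ?_, e, he, hPV, q', by rw [hrp]; exact hq'⟩, ?_, by rw [hrp]; exact hW2⟩
    swap
    · exact D.mul_mem _ (D.pow_mem (D.const_mem _ hζ0) j) _ hW1
    apply hnc (c / X.ζ ^ j)
    rw [map_div₀, map_pow, ← hc]
    have : algebraMap F L X.ζ ^ j ≠ 0 := by
      rw [← map_pow]
      exact (map_ne_zero _).mpr (pow_ne_zero _ hζ0)
    field_simp
  have hval : D.pl.Has (algebraMap F L X.ζ ^ j * r) (z ^ j * ρ) :=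
    ((D.base X.ζ).pow j).mul hρ
  refine ⟨j, hgood, ?_⟩
  by_cases hρ1 : z ^ j * ρ + 1 = 0
  · rw [eq_neg_of_add_eq_zero_left hρ1] at hval
    exact hval
  exfalso
  have hle : Valued.v (z ^ j * ρ + 1) ≤ WithZero.exp (-2 : ℤ) := by
    rw [show z ^ j * ρ + 1 = -(z ^ j * (-ρ) - 1) by ring, Valuation.map_neg]
    exact hj
  -- the value of q
  have hqv : D.pl.Has (q ^ p) (ρ ^ p + 1) := by
    rw [← hq]
    exact (hρ.pow p).add Plc.has_one
  obtain ⟨κ, hκ, hκp⟩ := Plc.pow_has hp0 hqv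
  have hρp : (z ^ j * ρ) ^ p = ρ ^ p := by
    rw [mul_pow, ← pow_mul, mul_comm j p, pow_mul, hzp, one_pow, one_mul]
  have hpe := X.loc.pow_exact X.hp (t := -(z ^ j * ρ)) (by
    rw [show -(z ^ j * ρ) - 1 = z ^ j * (-ρ) - 1 by ring]
    exact hj)
  rw [hpodd.neg_pow, hρp, show -(ρ ^ p) - 1 = -(ρ ^ p + 1) by ring, Valuation.map_neg, ← hκp, map_pow,
    show -(z ^ j * ρ) - 1 = -(z ^ j * ρ + 1) by ring, Valuation.map_neg] at hpe
  -- levels
  have hne : Valued.v (z ^ j * ρ + 1) ≠ (0 : ℤᵐ⁰) := (Valuation.ne_zero_iff _).mpr hρ1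
  obtain ⟨V, hV⟩ : ∃ V : ℤ, Valued.v (z ^ j * ρ + 1) = WithZero.exp V :=
    ⟨WithZero.log (Valued.v (z ^ j * ρ + 1)), (WithZero.exp_log hne).symm⟩
  rw [hV, ← WithZero.exp_add] at hpe
  have hκ0 : Valued.v κ ≠ (0 : ℤᵐ⁰) := by
    intro h0
    rw [h0, zero_pow hp0] at hpe
    exact WithZero.exp_ne_zero hpe.symm
  obtain ⟨M, hM⟩ : ∃ M : ℤ, Valued.v κ = WithZero.exp M :=
    ⟨WithZero.log (Valued.v κ), (WithZero.exp_log hκ0).symm⟩
  rw [hM, ← WithZero.exp_nsmul, WithZero.exp_inj, nsmul_eq_mul] at hpe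
  rw [hV, WithZero.exp_le_exp] at hle
  -- V = p M - 1 + p, V ≤ -2
  have hp2 : (2 : ℤ) ≤ p := by exact_mod_cast X.hp.two_le
  have hM2 : M + 1 ≤ -1 := by
    by_contra hcon
    push Not at hcon
    have h3 : (0 : ℤ) ≤ M + 1 := by omega
    have h4 : 0 ≤ (p : ℤ) * (M + 1) := by positivity
    have h5 : V = (p : ℤ) * (M + 1) - 1 := by linarith
    linarith
  obtain ⟨k, hk⟩ : ∃ k : ℕ, M + 1 = -((k : ℤ) + 1) := ⟨(-(M + 2)).toNat, by omega⟩
  refine no_level X D k hgood hval ?_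
  rw [hV]
  congr 1
  have h5 : V = (p : ℤ) * (M + 1) - 1 := by linarith
  rw [h5, hk]
  ring

end Pool.Agent.Lib.MP_2f3286_ag.Fer.Tp
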